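import Pool.Agent.Y301.TH.Cor

set_option autoImplicit false

/-!
MP_9d21cc_co: triangle areas and the area of the convex hull.  A universal inequality for pairs of
planar configurations, comparison with a concave modulus, and arbitrary families of points.
-/

namespace Pool.Agent.Results.MP_9d21cc_co.ConcaveAreaComparison

open MeasureTheory Pool.Agent.Helper717.Hull1 Pool.Agent.Helper717.Hull3
  Pool.Agent.Helper717.Hull6 Pool.Agent.Y301.TH
open scoped ENNReal NNReal

/-- Area of the (possibly degenerate) triangle with vertices `p`, `q`, `r`: half the absolute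
value of the determinant of `q - p` and `r - p`. -/
noncomputable def triArea (p q r : EuclideanSpace ℝ (Fin 2)) : ℝ :=
  1 / 2 * |(q 0 - p 0) * (r 1 - p 1) - (q 1 - p 1) * (r 0 - p 0)|

/-- The area of the convex hull of a family of points of the plane, as an element
of `[0, ∞]`. -/
noncomputable def hullArea {ι : Type*} (x : ι → EuclideanSpace ℝ (Fin 2)) : ℝ≥0∞ :=
  volume (convexHull ℝ (Set.range x))

lemma triArea_or (p q r : EuclideanSpace ℝ (Fin 2)) : triArea p q r = 1 / 2 * |orient p q r| := rfl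

lemma triArea_swap12 (p q r : EuclideanSpace ℝ (Fin 2)) : triArea q p r = triArea p q r := by
  rw [triArea_or, triArea_or, or_swap, abs_neg]

lemma triArea_swap23 (p q r : EuclideanSpace ℝ (Fin 2)) : triArea p r q = triArea p q r := by
  rw [triArea_or, triArea_or, or_swap', abs_neg]

lemma ar_eq {ι : Type*} (x : ι → EuclideanSpace ℝ (Fin 2)) (t : ι × ι × ι) :
    ar x t = triArea (x t.1) (x t.2.1) (x t.2.2) := by
  rw [triArea_or]
  unfold ar
  ring

lemma sym {n : ℕ} (R : Fin n → Fin n → Fin n → Prop)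
    (h12 : ∀ i j k, R i j k → R j i k) (h23 : ∀ i j k, R i j k → R i k j)
    (h : ∀ i j k, i < j → j < k → R i j k) :
    ∀ i j k, i ≠ j → j ≠ k → i ≠ k → R i j k := by
  intro i j k hij hjk hik
  rcases lt_or_gt_of_ne hij with h1 | h1 <;> rcases lt_or_gt_of_ne hjk with h2 | h2 <;>
    rcases lt_or_gt_of_ne hik with h3 | h3
  · exact h i j k h1 h2
  · exact absurd (h1.trans h2) (not_lt.2 h3.le)
  · exact h23 _ _ _ (h i k j h3 h2)
  · exact h23 _ _ _ (h12 _ _ _ (h k i j h3 h1))
  · exact h12 _ _ _ (h j i k h1 h3)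
  · exact h12 _ _ _ (h23 _ _ _ (h j k i h2 h3))
  · exact absurd (h2.trans h1) (not_lt.2 h3.le)
  · exact h12 _ _ _ (h23 _ _ _ (h12 _ _ _ (h k j i h2 h1)))

theorem result.{u} :
    (∀ (n : ℕ) (x y : Fin n → EuclideanSpace ℝ (Fin 2)),
      ∃ T : Multiset (Fin n × Fin n × Fin n),
        Multiset.card T ≤ n - 2 ∧
        (∀ t ∈ T, t.1 ≠ t.2.1 ∧ t.2.1 ≠ t.2.2 ∧ t.1 ≠ t.2.2) ∧
        (T.map fun t => triArea (x t.1) (x t.2.1) (x t.2.2)).sum ≤ (hullArea x).toReal ∧
        (hullArea y).toReal ≤ (T.map fun t => triArea (y t.1) (y t.2.1) (y t.2.2)).sum) ∧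
    (∀ (n : ℕ), 3 ≤ n → ∀ (x y : Fin n → EuclideanSpace ℝ (Fin 2)) (φ : ℝ → ℝ),
      ConcaveOn ℝ (Set.Ici 0) φ → MonotoneOn φ (Set.Ici 0) → 0 ≤ φ 0 →
      (∀ i j k : Fin n, i < j → j < k →
        triArea (y i) (y j) (y k) ≤ φ (triArea (x i) (x j) (x k))) →
      (hullArea y).toReal ≤ ((n : ℝ) - 2) * φ ((hullArea x).toReal / ((n : ℝ) - 2))) ∧
    (∀ (ι : Type u) (x y : ι → EuclideanSpace ℝ (Fin 2)) (c : ℝ≥0),
      (∀ i j k : ι, triArea (y i) (y j) (y k) ≤ c * triArea (x i) (x j) (x k)) →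
      hullArea y ≤ c * hullArea x) ∧
    (∀ (n : ℕ) (x y : Fin n → EuclideanSpace ℝ (Fin 2)),
      (∀ i j k : Fin n, i < j → j < k →
        triArea (y i) (y j) (y k) ≤ triArea (x i) (x j) (x k)) →
      hullArea y ≤ hullArea x) := by
  refine ⟨?_, ?_, ?_, ?_⟩
  · intro n x y
    obtain ⟨T, h1, h2, h3, h4⟩ := struct_real x y
    rw [Fintype.card_fin] at h1
    refine ⟨T, h1, h2, ?_, ?_⟩
    · refine le_trans (le_of_eq ?_) h3
      exact congrArg Multiset.sum (Multiset.map_congr rfl (fun t _ => (ar_eq x t).symm))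
    · refine le_trans h4 (le_of_eq ?_)
      exact congrArg Multiset.sum (Multiset.map_congr rfl (fun t _ => ar_eq y t))
  · intro n hn x y φ hφ hm h0 h
    have h1 := sym (fun i j k => triArea (y i) (y j) (y k) ≤ φ (triArea (x i) (x j) (x k)))
      (fun i j k hh => by
        rw [triArea_swap12 (y i), triArea_swap12 (x i)]; exact hh)
      (fun i j k hh => by
        rw [triArea_swap23 (y i), triArea_swap23 (x i)]; exact hh) h
    have h2 := concave (by rw [Fintype.card_fin]; exact hn) x y φ hφ hm h0 (by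
      rintro ⟨i, j, k⟩ a b c
      rw [ar_eq, ar_eq]
      exact h1 i j k a b c)
    rw [Fintype.card_fin, Nat.cast_sub (by omega : 2 ≤ n)] at h2
    push_cast at h2
    exact h2
  · intro ι x y c h
    exact linear_all x y c (fun t => by rw [ar_eq, ar_eq]; exact h _ _ _)
  · intro n x y h
    have h1 := sym (fun i j k => triArea (y i) (y j) (y k) ≤ triArea (x i) (x j) (x k))
      (fun i j k hh => by
        rw [triArea_swap12 (y i), triArea_swap12 (x i)]; exact hh)
      (fun i j k hh => by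
        rw [triArea_swap23 (y i), triArea_swap23 (x i)]; exact hh) h
    obtain ⟨T, g1, g2, g3, g4⟩ := struct_real x y
    have h3 : (T.map (ar y)).sum ≤ (T.map (ar x)).sum := by
      apply Multiset.sum_map_le_sum_map
      intro t ht
      obtain ⟨a, b, c⟩ := g2 t ht
      rw [ar_eq, ar_eq]
      exact h1 _ _ _ a b c
    have h4 := (g4.trans h3).trans g3
    exact (ENNReal.toReal_le_toReal (vol_hull_lt_top y).ne (vol_hull_lt_top x).ne).1 h4

end Pool.Agent.Results.MP_9d21cc_co.ConcaveAreaComparison
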